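import Pool.Agent.H99.SQ.Defs

set_option autoImplicit false

namespace Pool.Agent.H17.SQ.PD

open Pool.Agent.H99.SQ

lemma count_period (Q : ℕ) (P : ℕ → Prop) [DecidablePred P] (hP : ∀ n, P (n + Q) ↔ P n)
    (m : ℕ) : Nat.count P (Q + m) = Nat.count P Q + Nat.count P m := by
  rw [Nat.count_add]
  congr 1
  have : (fun k => P (Q + k)) = P := by
    funext k
    rw [add_comm]
    exact propext (hP k)
  simp only [this]

lemma count_mul (Q : ℕ) (P : ℕ → Prop) [DecidablePred P] (hP : ∀ n, P (n + Q) ↔ P n)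
    (k r : ℕ) : Nat.count P (Q * k + r) = k * Nat.count P Q + Nat.count P r := by
  induction k with
  | zero => simp
  | succ k ih =>
    have h : Q * (k + 1) + r = Q + (Q * k + r) := by ring
    rw [h, count_period Q P hP, ih]
    ring

theorem pf_PD : T_PD := by
  classical
  intro Q P hQ hP
  have hQ0 : (0 : ℝ) < Q := by exact_mod_cast hQ
  set c : ℕ := Nat.count P Q with hc
  have hcQ : c ≤ Q := Nat.count_le P
  refine ⟨(c : ℝ) / Q, fun x => ?_⟩
  have h1 : ({n : ℕ | n ≤ x ∧ P n}.ncard) = Nat.count P (x + 1) := by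
    rw [Nat.count_eq_card_filter_range, ← Set.ncard_coe_finset]
    congr 1
    ext n
    simp
  rw [h1]
  set k : ℕ := (x + 1) / Q with hk
  set r : ℕ := (x + 1) % Q with hr
  have hx : Q * k + r = x + 1 := Nat.div_add_mod (x + 1) Q
  have hrQ : r < Q := Nat.mod_lt _ hQ
  have h2 : Nat.count P (x + 1) = k * c + Nat.count P r := by
    rw [← hx]
    exact count_mul Q P hP k r
  rw [h2]
  have h3 : Nat.count P r ≤ r := Nat.count_le P
  have hxr : (x : ℝ) = Q * k + r - 1 := by
    have : ((Q * k + r : ℕ) : ℝ) = ((x + 1 : ℕ) : ℝ) := by rw [hx]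
    push_cast at this
    linarith
  have h4 : ((k * c + Nat.count P r : ℕ) : ℝ) - (c : ℝ) / Q * x
      = (Nat.count P r : ℝ) - (c : ℝ) / Q * r + (c : ℝ) / Q := by
    rw [hxr]
    push_cast
    field_simp
    ring
  rw [h4]
  have h5 : 0 ≤ (c : ℝ) / Q := by positivity
  have h6 : (c : ℝ) / Q ≤ 1 := by
    rw [div_le_one hQ0]
    exact_mod_cast hcQ
  have h7 : (Nat.count P r : ℝ) ≤ r := by exact_mod_cast h3
  have h8 : (r : ℝ) ≤ Q := by exact_mod_cast hrQ.le
  have h9 : (0 : ℝ) ≤ r := by positivity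
  have h10 : (0 : ℝ) ≤ Nat.count P r := by positivity
  have h11 : (c : ℝ) / Q * r ≤ r := by nlinarith
  have h12 : 0 ≤ (c : ℝ) / Q * r := by positivity
  rw [abs_le]
  constructor <;> linarith

end Pool.Agent.H17.SQ.PD
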