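import Pool.Agent.H45.SQ.Targets2

/-!
# POLY: polynomials of families
-/

namespace Pool.Agent.H17.SQ

open Pool.Agent.H45.SQ Finset Polynomial
open scoped BigOperators ComplexConjugate ComplexOrder

/-- powers of a family -/
theorem pow_fam (hM : T_MUL) (hL : T_LIN) (n : ℕ) (C : ℝ) (G : Type) [AddCommGroup G]
    [Fintype G] [DecidableEq G] [Module (ZMod 2) G] (L : Fam G) (h1 : Sep C L) (h2 : Herm L) :
    ∃ L' : Fam G, Sep (C ^ (n + 1)) L' ∧ Herm L' ∧ ∀ s, mat L' s = (mat L s) ^ (n + 1) := by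
  induction n with
  | zero => exact ⟨L, by simpa using h1, h2, fun s => by simp⟩
  | succ n ih =>
    obtain ⟨L', h3, h4, h5⟩ := ih
    refine ⟨mulF L' L, ?_, ?_, ?_⟩
    · have := (hM G L' L).1 _ _ h3 h1
      rwa [← pow_succ] at this
    · have hH := (hL G (mulF L' L) L 0 0 0).2.2.2.2.2.2.2.2
      rw [hH]
      intro s
      rw [(hM G L' L).2 s, h5 s, ← pow_succ]
      have h6 := (hL G L L 0 0 0).2.2.2.2.2.2.2.2
      rw [h6] at h2
      have h7 := h2 s
      unfold Matrix.IsHermitian at h7 ⊢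
      rw [Matrix.conjTranspose_pow, h7]
    · intro s
      rw [(hM G L' L).2 s, h5 s, ← pow_succ]

theorem poly (hM : T_MUL) (hL : T_LIN) : T_POLY := by
  have key : ∀ r : ℝ[X], ∀ C : ℝ, ∃ C' : ℝ,
      ∀ (G : Type) [AddCommGroup G] [Fintype G] [DecidableEq G] [Module (ZMod 2) G]
      (L : Fam G), Sep C L → Herm L →
      ∃ L' : Fam G, Sep C' L' ∧ Herm L' ∧ ∀ s, mat L' s = aeval (mat L s) (X * r) := by
    intro r
    induction r using Polynomial.induction_on' with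
    | add p q hp hq =>
      intro C
      obtain ⟨C1, h1⟩ := hp C
      obtain ⟨C2, h2⟩ := hq C
      refine ⟨C1 + C2, ?_⟩
      intro G _ _ _ _ L hS hH
      obtain ⟨L1, a1, b1, c1⟩ := h1 G L hS hH
      obtain ⟨L2, a2, b2, c2⟩ := h2 G L hS hH
      have hh := hL G L1 L2 C1 C2 0
      refine ⟨_, hh.2.2.1 a1 a2, hh.2.2.2.2.1 b1 b2, ?_⟩
      intro s
      rw [hh.2.2.2.2.2.2.1 s, c1 s, c2 s, mul_add, map_add]
    | monomial n a =>
      intro C
      refine ⟨|a| * C ^ (n + 1), ?_⟩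
      intro G _ _ _ _ L hS hH
      obtain ⟨L1, a1, b1, c1⟩ := pow_fam hM hL n C G L hS hH
      have hh := hL G L1 L1 (C ^ (n + 1)) 0 a
      refine ⟨_, hh.2.2.2.1 a1, hh.2.2.2.2.2.1 b1, ?_⟩
      intro s
      rw [hh.2.2.2.2.2.2.2.1 s, c1 s, X_mul_monomial, aeval_monomial]
      rw [← Algebra.smul_def]
      ext i j
      simp [Matrix.smul_apply]
  intro q hq C
  obtain ⟨r, hr⟩ := X_dvd_iff.mpr hq
  obtain ⟨C', h⟩ := key r C
  refine ⟨C', ?_⟩
  intro G _ _ _ _ L hS hH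
  obtain ⟨L', h1, h2, h3⟩ := h G L hS hH
  exact ⟨L', h1, h2, fun s => by rw [h3 s, hr]⟩

end Pool.Agent.H17.SQ
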