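import Pool.Agent.H99.SQ.Defs

set_option autoImplicit false

namespace Pool.Agent.H17.SQ.SM

open Pool.Agent.H99.SQ

/-- the odd primes up to `500` with the order of `2` -/
def tab : List (ℕ × ℕ) :=
  [(3, 2), (5, 4), (7, 3), (11, 10), (13, 12), (17, 8), (19, 18), (23, 11), (29, 28), (31, 5),
   (37, 36), (41, 20), (43, 14), (47, 23), (53, 52), (59, 58), (61, 60), (67, 66), (71, 35),
   (73, 9), (79, 39), (83, 82), (89, 11), (97, 48), (101, 100), (103, 51), (107, 106), (109, 36),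
   (113, 28), (127, 7), (131, 130), (137, 68), (139, 138), (149, 148), (151, 15), (157, 52),
   (163, 162), (167, 83), (173, 172), (179, 178), (181, 180), (191, 95), (193, 96), (197, 196),
   (199, 99), (211, 210), (223, 37), (227, 226), (229, 76), (233, 29), (239, 119), (241, 24),
   (251, 50), (257, 16), (263, 131), (269, 268), (271, 135), (277, 92), (281, 70), (283, 94),
   (293, 292), (307, 102), (311, 155), (313, 156), (317, 316), (331, 30), (337, 21), (347, 346),
   (349, 348), (353, 88), (359, 179), (367, 183), (373, 372), (379, 378), (383, 191), (389, 388),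
   (397, 44), (401, 200), (409, 204), (419, 418), (421, 420), (431, 43), (433, 72), (439, 73),
   (443, 442), (449, 224), (457, 76), (461, 460), (463, 231), (467, 466), (479, 239), (487, 243),
   (491, 490), (499, 166)]

/-- lower bound for the order modulo `p ^ 2` -/
def wt (p : ℕ) : ℕ :=
  if p = 1093 then 364 else if p = 3511 then 1755 else p * ((tab.lookup p).getD 1)

/-- the primes of the table -/
def ps : List ℕ := tab.map Prod.fst

/-- no power of `2` in a range of exponents is `1` modulo `p` -/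
def chk (p : ℕ) : ℕ → ℕ → Bool
  | 0, _ => true
  | n + 1, x => (!Nat.beq x 1) && chk p n (2 * x % p)

lemma chk_spec (p : ℕ) : ∀ (n x i : ℕ), x = 2 ^ i % p → chk p n x = true →
    ∀ j, i ≤ j → j < i + n → 2 ^ j % p ≠ 1 := by
  intro n
  induction n with
  | zero => intro x i _ _ j h1 h2; omega
  | succ n ih =>
    intro x i hx hc j h1 h2
    rw [chk, Bool.and_eq_true] at hc
    obtain ⟨hc1, hc2⟩ := hc
    rcases Nat.eq_or_lt_of_le h1 with rfl | h3
    · rw [← hx]
      intro h4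
      subst h4
      simp at hc1
    · refine ih (2 * x % p) (i + 1) ?_ hc2 j h3 (by omega)
      rw [hx, pow_succ, mul_comm (2 ^ i) 2, Nat.mul_mod, Nat.mul_mod 2 (2 ^ i), Nat.mod_mod]

lemma le_order (p o : ℕ) (hp : 1 < p) (hc : chk p (o - 1) (2 % p) = true)
    (h0 : 0 < orderOf (2 : ZMod p)) : o ≤ orderOf (2 : ZMod p) := by
  by_contra hlt
  push Not at hlt
  have h1 := chk_spec p (o - 1) (2 % p) 1 (by simp) hc (orderOf (2 : ZMod p)) h0 (by omega)
  apply h1
  have h2 : (2 : ZMod p) ^ (orderOf (2 : ZMod p)) = 1 := pow_orderOf_eq_one _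
  have h3 : ((2 ^ (orderOf (2 : ZMod p)) : ℕ) : ZMod p) = ((1 : ℕ) : ZMod p) := by
    push_cast
    exact h2
  rw [ZMod.natCast_eq_natCast_iff'] at h3
  rw [h3]
  exact Nat.mod_eq_of_lt hp

lemma chk1 : (ps.all fun p => chk p (((tab.lookup p).getD 1) - 1) (2 % p) &&
    (!Nat.beq ((2 ^ (p - 1) - 1) % p ^ 2) 0) && (!Nat.beq p 1093) && (!Nat.beq p 3511)) = true := by
  decide +kernel

lemma chk2 : chk 1093 363 (2 % 1093) = true := by decide +kernel

lemma chk3 : chk 3511 1754 (2 % 3511) = true := by decide +kernel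

/-- the numbers up to `500` -/
lemma chk4 : ((List.range 501).all fun p => Nat.ble p 2 ||
    ([2, 3, 5, 7, 11, 13, 17, 19].any fun d => Nat.beq (p % d) 0 && Nat.blt d p) ||
    ps.elem p) = true := by
  decide +kernel

lemma chk5 : (((1093 :: 3511 :: ps).map fun p => 10 ^ 9 / wt p + 1).sum ≤ 32 * 10 ^ 7) := by
  decide +kernel

lemma chk6 : (1093 :: 3511 :: ps).Nodup := by
  decide +kernel

lemma chk7 : ((1093 :: 3511 :: ps).all fun p => Nat.blt 0 (wt p)) = true := by
  decide +kernel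

lemma mem_ps (p : ℕ) (hp : OP p) (h5 : p ≤ 500) : p ∈ ps := by
  have h := List.all_eq_true.mp chk4 p (List.mem_range.mpr (by omega))
  rw [Bool.or_eq_true, Bool.or_eq_true] at h
  rcases h with (h | h) | h
  · have h1 : p ≤ 2 := by simpa using h
    have h2 := hp.1.two_le
    have h3 := hp.2
    omega
  · exfalso
    rw [List.any_eq_true] at h
    obtain ⟨d, hd, h⟩ := h
    rw [Bool.and_eq_true] at h
    obtain ⟨h1, h2⟩ := h
    have h1' : p % d = 0 := by simpa using h1
    have h2' : d < p := by simpa using h2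
    have hd1 : d ≠ 1 := by
      rintro rfl
      simp at hd
    rcases (Nat.dvd_prime hp.1).mp (Nat.dvd_of_mod_eq_zero h1') with h3 | h3
    · exact hd1 h3
    · omega
  · simpa using h

lemma wt_le (h1 : T_ORD) (p : ℕ) (hp : OP p) (h5 : p ≤ 500 ∨ p = 1093 ∨ p = 3511) :
    wt p ≤ mm p := by
  obtain ⟨h0, -, -, -, hd, hw⟩ := h1 p hp
  have hop : 0 < orderOf (2 : ZMod p) := Nat.pos_of_dvd_of_pos hd h0
  rcases h5 with h5 | rfl | rfl
  · have hm := List.all_eq_true.mp chk1 p (mem_ps p hp h5)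
    rw [Bool.and_eq_true, Bool.and_eq_true, Bool.and_eq_true] at hm
    obtain ⟨⟨⟨hc, hn⟩, h6⟩, h7⟩ := hm
    have h6' : p ≠ 1093 := by omega
    have h7' : p ≠ 3511 := by omega
    have hn' : ¬ p ^ 2 ∣ 2 ^ (p - 1) - 1 := by
      intro hdv
      have := Nat.mod_eq_zero_of_dvd hdv
      rw [this] at hn
      simp at hn
    rw [wt, if_neg h6', if_neg h7']
    have h8 := le_order p _ hp.1.one_lt hc hop
    exact (Nat.mul_le_mul_left p h8).trans (Nat.le_of_dvd h0 (hw hn'))
  · have h8 := le_order 1093 364 (by norm_num) chk2 hop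
    have : wt 1093 = 364 := by simp [wt]
    rw [this]
    exact h8.trans (Nat.le_of_dvd h0 hd)
  · have h8 := le_order 3511 1755 (by norm_num) chk3 hop
    have : wt 3511 = 1755 := by simp [wt]
    rw [this]
    exact h8.trans (Nat.le_of_dvd h0 hd)

theorem pf_SM (h1 : T_ORD) : T_SM := by
  classical
  intro F hF
  set T : Finset ℕ := (1093 :: 3511 :: ps).toFinset with hT
  have hFT : F ⊆ T := by
    intro p hp
    obtain ⟨h2, h3⟩ := hF p hp
    rw [hT, List.mem_toFinset, List.mem_cons, List.mem_cons]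
    rcases h3 with h3 | h3 | h3
    · exact Or.inr (Or.inr (mem_ps p h2 h3))
    · exact Or.inl h3
    · exact Or.inr (Or.inl h3)
  have hle : ∀ p ∈ F, (1 : ℝ) / mm p ≤ ((10 ^ 9 / wt p + 1 : ℕ) : ℝ) / 10 ^ 9 := by
    intro p hp
    have h2 := wt_le h1 p (hF p hp).1 (hF p hp).2
    have hpos : 0 < wt p := by
      have := List.all_eq_true.mp chk7 p (by
        have := hFT hp
        rw [hT, List.mem_toFinset] at this
        exact this)
      simpa using this
    have h3 : (0 : ℝ) < wt p := by exact_mod_cast hpos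
    have h4 : (wt p : ℝ) ≤ mm p := by exact_mod_cast h2
    have h5 : (1 : ℝ) / mm p ≤ 1 / wt p := one_div_le_one_div_of_le h3 h4
    refine h5.trans ?_
    rw [div_le_div_iff₀ h3 (by positivity)]
    have h6 : 10 ^ 9 < wt p * (10 ^ 9 / wt p + 1) := Nat.lt_mul_div_succ _ hpos
    have h7 : ((10 ^ 9 : ℕ) : ℝ) < ((wt p * (10 ^ 9 / wt p + 1) : ℕ) : ℝ) := by exact_mod_cast h6
    push_cast at h7 ⊢
    nlinarith
  have hsum : (∑ p ∈ T, (10 ^ 9 / wt p + 1)) ≤ 32 * 10 ^ 7 := by
    rw [hT, List.sum_toFinset _ chk6]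
    exact chk5
  calc ∑ p ∈ F, (1 : ℝ) / mm p ≤ ∑ p ∈ F, ((10 ^ 9 / wt p + 1 : ℕ) : ℝ) / 10 ^ 9 :=
        Finset.sum_le_sum hle
    _ ≤ ∑ p ∈ T, ((10 ^ 9 / wt p + 1 : ℕ) : ℝ) / 10 ^ 9 :=
        Finset.sum_le_sum_of_subset_of_nonneg hFT (fun _ _ _ => by positivity)
    _ = ((∑ p ∈ T, (10 ^ 9 / wt p + 1) : ℕ) : ℝ) / 10 ^ 9 := by
        rw [← Finset.sum_div, Nat.cast_sum]
    _ ≤ ((32 * 10 ^ 7 : ℕ) : ℝ) / 10 ^ 9 := by
        gcongr
    _ = 32 / 100 := by norm_num

end Pool.Agent.H17.SQ.SM
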