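import Pool.Agent.H45.SQ.Targets2

/-!
# STB: one-sided step, the new family
-/

namespace Pool.Agent.H17.SQ.STBm

open Pool.Agent.H45.SQ Finset Polynomial
open scoped BigOperators ComplexConjugate ComplexOrder

section

variable {G : Type} [AddCommGroup G] [Fintype G] [DecidableEq G] [Module (ZMod 2) G]

theorem op_zero {R : ℝ} (hR : 0 ≤ R) : OpLe (0 : Matrix G G ℂ) R := by
  refine ⟨hR, fun g => ?_⟩
  simp only [Matrix.zero_mulVec, Pi.zero_apply, norm_zero]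
  have : 0 ≤ R ^ 2 * ∑ y, ‖g y‖ ^ 2 := by positivity
  simpa using this

theorem op_algebraMap (c : ℝ) : OpLe (algebraMap ℝ (Matrix G G ℂ) c) |c| := by
  refine ⟨abs_nonneg _, fun g => ?_⟩
  rw [Algebra.algebraMap_eq_smul_one]
  simp only [Matrix.smul_mulVec, Matrix.one_mulVec, Pi.smul_apply, norm_smul, mul_pow,
    Real.norm_eq_abs]
  rw [Finset.mul_sum]

theorem op_one : OpLe (1 : Matrix G G ℂ) 1 := by
  refine ⟨zero_le_one, fun g => ?_⟩
  simp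

theorem op_aeval (hOPT : T_OPT) (r : ℝ[X]) (R Lr : ℝ)
    (hLr : ∀ (G : Type) [AddCommGroup G] [Fintype G] [DecidableEq G] [Module (ZMod 2) G]
      (A B : Matrix G G ℂ) (ε : ℝ), OpLe A R → OpLe B R → OpLe (A - B) ε →
      OpLe (aeval A r - aeval B r) (Lr * ε)) (M : Matrix G G ℂ) (hM : OpLe M R) :
    OpLe (aeval M r) (Lr * R + |r.coeff 0|) := by
  have h1 := hLr G M 0 R hM (op_zero hM.1) (by simpa using hM)
  have h2 : aeval M r = (aeval M r - aeval 0 r) + algebraMap ℝ (Matrix G G ℂ) (r.coeff 0) := by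
    rw [coeff_zero_eq_aeval_zero']
    abel
  rw [h2]
  exact (hOPT G _ _ _ _).1 h1 (op_algebraMap _)

theorem op_mulVec {W M : Matrix G G ℂ} {c : ℝ} (hW : OpLe W c) (g : G → ℂ) :
    ∑ y, ‖(W * M).mulVec g y‖ ^ 2 ≤ c ^ 2 * ∑ y, ‖M.mulVec g y‖ ^ 2 := by
  rw [← Matrix.mulVec_mulVec]
  exact hW.2 _

theorem Rm_sub (s t : G) (X : G → ℂ) (M M' : Matrix G G ℂ) :
    Rm s t X M - Rm s t X M' = Rm s t X (M - M') := by
  ext y y'
  simp only [Rm, Matrix.sub_apply, map_sub]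
  ring

end

theorem stb (hCUTP : T_CUTP) (hPOLY : T_POLY) (hMUL : T_MUL) (hLIN : T_LIN) (hANCH : T_ANCH)
    (hSHRP : T_SHRP) (hLIP : T_LIP) (hOPT : T_OPT) (hENT : T_ENT) : T_STB := by
  intro K Λ ε q hK hε hq0 hq1
  obtain ⟨Lq, hLq0, hLq⟩ := hLIP q (32 * K ^ 2)
  have hK2 : 0 < K ^ 2 := by positivity
  have hden : 0 < 1 + 28 * K ^ 2 * Lq := by positivity
  obtain ⟨η, hη0, hη1, hη2⟩ : ∃ η : ℝ, 0 < η ∧ η ≤ 1 ∧ η * (1 + 28 * K ^ 2 * Lq) ≤ ε := by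
    refine ⟨min 1 (ε / (1 + 28 * K ^ 2 * Lq)), by positivity, min_le_left _ _, ?_⟩
    calc min 1 (ε / (1 + 28 * K ^ 2 * Lq)) * (1 + 28 * K ^ 2 * Lq) ≤
        ε / (1 + 28 * K ^ 2 * Lq) * (1 + 28 * K ^ 2 * Lq) :=
          mul_le_mul_of_nonneg_right (min_le_right _ _) hden.le
      _ = ε := by field_simp
  obtain ⟨h, hcut⟩ := hCUTP (max K 1) (1 / 4) (3 / 4) (η / (2 * K ^ 2)) (by norm_num)
    (by norm_num) (le_trans (by norm_num) (le_max_right _ _)) (by positivity)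
  obtain ⟨CF, hCF⟩ := hPOLY h hcut.1 K
  obtain ⟨r, hr⟩ := X_dvd_iff.mpr hcut.1
  obtain ⟨Lr, hLr0, hLr⟩ := hLIP r K
  obtain ⟨rq, hrq⟩ := X_dvd_iff.mpr hq0
  set CR : ℝ := CF * (2 * K) ^ 2 with hCR
  set CK : ℝ := CF * CR * CF with hCK
  obtain ⟨Cq, hCq⟩ := hPOLY q hq0 CK
  obtain ⟨Lrq, hLrq0, hLrq⟩ := hLIP rq CK
  set cr : ℝ := Lr * K + |r.coeff 0| with hcr
  set cq : ℝ := (Lrq * CK + |rq.coeff 0|) * (CF * CR) with hcq
  refine ⟨max Cq (CF + |(-1 : ℝ)| * Cq), ((1 + cq) * cr) ^ 2 * Λ, ?_⟩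
  intro G _ _ _ _ f A C t₀ X₀ side hf hSA hHA hDA hSC hHC hX
  obtain ⟨F, hSF, hHF, hmF⟩ := hCF G A hSA hHA
  obtain ⟨FC, hSFC, hHFC, hmFC⟩ := hCF G C hSC hHC
  obtain ⟨hSR, hHR, hmR⟩ := hANCH G FC t₀ X₀ (2 * K) hX
  have hSR' : Sep CR (anch t₀ X₀ FC) := hSR _ hSFC
  have hHR' := hHR hHFC
  set Ra := anch t₀ X₀ FC with hRa
  -- the family `F * R * F`
  set Kf : Fam G := mulF (mulF F Ra) F with hKf
  have hSK : Sep CK Kf := (hMUL G _ _).1 _ _ ((hMUL G _ _).1 _ _ hSF hSR') hSF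
  have hmK : ∀ s, mat Kf s = mat F s * mat Ra s * mat F s := by
    intro s
    rw [hKf, (hMUL G _ _).2 s, (hMUL G _ _).2 s]
  have herm_iff : ∀ L : Fam G, Herm L ↔ ∀ s, (mat L s).IsHermitian :=
    fun L => (hLIN G L L 0 0 0).2.2.2.2.2.2.2.2
  have hHK : Herm Kf := by
    rw [herm_iff]
    intro s
    rw [hmK s]
    have h1 : (mat F s).IsHermitian := (herm_iff F).1 hHF s
    have h2 : (mat Ra s).IsHermitian := (herm_iff Ra).1 hHR' s
    unfold Matrix.IsHermitian at h1 h2 ⊢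
    rw [Matrix.conjTranspose_mul, Matrix.conjTranspose_mul, h1, h2, Matrix.mul_assoc]
  obtain ⟨Q, hSQ, hHQ, hmQ⟩ := hCq G Kf hSK hHK
  -- operator norms
  have oA : ∀ s, OpLe (mat A s) K := fun s => (hENT G A K hSA).2.2 s
  have oF : ∀ s, OpLe (mat F s) CF := fun s => (hENT G F CF hSF).2.2 s
  have oR : ∀ s, OpLe (mat Ra s) CR := fun s => (hENT G Ra CR hSR').2.2 s
  have oK : ∀ s, OpLe (mat Kf s) CK := fun s => (hENT G Kf CK hSK).2.2 s
  have hFA : ∀ s, mat F s = aeval (mat A s) r * mat A s := by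
    intro s
    rw [hmF s, hr, mul_comm, map_mul, aeval_X]
  have hQF : ∀ s, mat Q s = aeval (mat Kf s) rq * (mat F s * mat Ra s) * mat F s := by
    intro s
    rw [hmQ s, hrq, mul_comm, map_mul, aeval_X, hmK s]
    simp only [Matrix.mul_assoc]
  have oW : ∀ s, OpLe (aeval (mat Kf s) rq * (mat F s * mat Ra s)) cq := by
    intro s
    exact (hOPT G _ _ _ _).2.2.1 (op_aeval hOPT rq CK Lrq hLrq _ (oK s))
      ((hOPT G _ _ _ _).2.2.1 (oF s) (oR s))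
  have domF : ∀ (s : G) (g : G → ℂ), ∑ y, ‖(mat F s).mulVec g y‖ ^ 2 ≤
      cr ^ 2 * (Λ * qf (mat (rho f) s) g) := by
    intro s g
    rw [hFA s]
    refine (op_mulVec (op_aeval hOPT r K Lr hLr _ (oA s)) g).trans ?_
    exact mul_le_mul_of_nonneg_left (hDA s g) (sq_nonneg _)
  have hcq0 : 0 ≤ cq := (oW 0).1
  -- the bounds for the exact projections
  have hclose : ∀ (s : G) (P R : Matrix G G ℂ) (D D' : ℕ), Gap (mat A s) P D →
      Gap (mat C (s + t₀)) R D' → OpLe (mat F s - P) η ∧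
        OpLe (mat Q s - aeval (P * Rm s t₀ X₀ R * P) q) (Lq * (28 * K ^ 2 * η)) := by
    intro s P R D D' hP hR
    have e1 : 2 * (η / (2 * K ^ 2)) * K ^ 2 = η := by field_simp
    have c1 : OpLe (mat F s - P) η := by
      have := hSHRP G (mat A s) P D K (max K 1) (η / (2 * K ^ 2)) h hK.le (le_max_left _ _)
        (le_max_right _ _) hcut ((herm_iff A).1 hHA s) ((hENT G A K hSA).2.1 s) hP
      rw [e1, ← hmF s] at this
      exact (hOPT G _ 0 _ 0).2.2.2.2.2.1 hη0.le this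
    have c2 : OpLe (mat FC (s + t₀) - R) η := by
      have := hSHRP G (mat C (s + t₀)) R D' K (max K 1) (η / (2 * K ^ 2)) h hK.le
        (le_max_left _ _) (le_max_right _ _) hcut ((herm_iff C).1 hHC _)
        ((hENT G C K hSC).2.1 _) hR
      rw [e1, ← hmFC (s + t₀)] at this
      exact (hOPT G _ 0 _ 0).2.2.2.2.2.1 hη0.le this
    have oP : OpLe P 1 := (hOPT G P 0 0 0).2.2.2.2.1 hP.proj
    have oRR : OpLe R 1 := (hOPT G R 0 0 0).2.2.2.2.1 hR.proj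
    have oF1 : OpLe (mat F s) (1 + η) := by
      have := (hOPT G _ _ _ _).1 oP c1
      rwa [add_sub_cancel] at this
    have oFC1 : OpLe (mat FC (s + t₀)) (1 + η) := by
      have := (hOPT G _ _ _ _).1 oRR c2
      rwa [add_sub_cancel] at this
    have oRm : ∀ (M : Matrix G G ℂ) (c : ℝ), OpLe M c →
        OpLe (Rm s t₀ X₀ M) ((2 * K) ^ 2 * c) := by
      intro M c hM
      exact (hOPT G M 0 c 0).2.2.2.2.2.2.2.2.1 X₀ (2 * K) s t₀ hX hM
    have oRa : OpLe (mat Ra s) ((2 * K) ^ 2 * (1 + η)) := by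
      rw [hmR s]; exact oRm _ _ oFC1
    have oRx : OpLe (Rm s t₀ X₀ R) ((2 * K) ^ 2 * 1) := oRm _ _ oRR
    have oRd : OpLe (mat Ra s - Rm s t₀ X₀ R) ((2 * K) ^ 2 * η) := by
      rw [hmR s, Rm_sub]; exact oRm _ _ c2
    have mono : ∀ (M : Matrix G G ℂ) (c c' : ℝ), OpLe M c → c ≤ c' → OpLe M c' :=
      fun M c c' h1 h2 => (hOPT G M 0 c c').2.2.2.1 h1 h2
    have oKf : OpLe (mat Kf s) (32 * K ^ 2) := by
      rw [hmK s]
      refine mono _ _ _ ((hOPT G _ _ _ _).2.2.1 ((hOPT G _ _ _ _).2.2.1 oF1 oRa) oF1) ?_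
      have : (1 + η) ^ 3 ≤ 8 := by
        have : (1 + η) ^ 3 ≤ (2 : ℝ) ^ 3 := by
          refine pow_le_pow_left₀ (by linarith) (by linarith) 3
        linarith
      nlinarith
    have oPRP : OpLe (P * Rm s t₀ X₀ R * P) (32 * K ^ 2) := by
      refine mono _ _ _ ((hOPT G _ _ _ _).2.2.1 ((hOPT G _ _ _ _).2.2.1 oP oRx) oP) ?_
      nlinarith
    have hd : mat Kf s - P * Rm s t₀ X₀ R * P =
        (mat F s - P) * (mat Ra s * mat F s) + P * ((mat Ra s - Rm s t₀ X₀ R) * mat F s) +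
          P * (Rm s t₀ X₀ R * (mat F s - P)) := by
      rw [hmK s]
      noncomm_ring
    have od : OpLe (mat Kf s - P * Rm s t₀ X₀ R * P) (28 * K ^ 2 * η) := by
      rw [hd]
      refine mono _ _ _ ((hOPT G _ _ _ _).1 ((hOPT G _ _ _ _).1
        ((hOPT G _ _ _ _).2.2.1 c1 ((hOPT G _ _ _ _).2.2.1 oRa oF1))
        ((hOPT G _ _ _ _).2.2.1 oP ((hOPT G _ _ _ _).2.2.1 oRd oF1)))
        ((hOPT G _ _ _ _).2.2.1 oP ((hOPT G _ _ _ _).2.2.1 oRx c1))) ?_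
      have h2 : (1 + η) * (1 + η) ≤ 4 := by nlinarith
      have h3 : 0 ≤ K ^ 2 * η := by positivity
      have h4 : η * ((2 * K) ^ 2 * (1 + η) * (1 + η)) +
          1 * ((2 * K) ^ 2 * η * (1 + η)) + 1 * ((2 * K) ^ 2 * 1 * η) =
          (K ^ 2 * η) * (4 * ((1 + η) * (1 + η)) + 4 * (1 + η) + 4) := by ring
      rw [h4]
      have h5 : (K ^ 2 * η) * (4 * ((1 + η) * (1 + η)) + 4 * (1 + η) + 4) ≤
          (K ^ 2 * η) * 28 := by
        refine mul_le_mul_of_nonneg_left ?_ h3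
        linarith
      linarith
    refine ⟨c1, ?_⟩
    rw [hmQ s]
    exact hLq G _ _ _ oKf oPRP od
  cases side with
  | true =>
    refine ⟨Q, ?_, hHQ, ?_, ?_⟩
    · exact (hLIN G Q Q Cq _ 0).2.1 hSQ (le_max_left _ _)
    · intro s g
      rw [hQF s]
      refine (op_mulVec (oW s) g).trans ?_
      have h1 := domF s g
      have h0 : 0 ≤ ∑ y, ‖(mat F s).mulVec g y‖ ^ 2 := by positivity
      have h2 : cq ^ 2 ≤ (1 + cq) ^ 2 := by nlinarith
      calc cq ^ 2 * ∑ y, ‖(mat F s).mulVec g y‖ ^ 2 ≤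
          (1 + cq) ^ 2 * ∑ y, ‖(mat F s).mulVec g y‖ ^ 2 :=
            mul_le_mul_of_nonneg_right h2 h0
        _ ≤ (1 + cq) ^ 2 * (cr ^ 2 * (Λ * qf (mat (rho f) s) g)) :=
            mul_le_mul_of_nonneg_left h1 (sq_nonneg _)
        _ = ((1 + cq) * cr) ^ 2 * Λ * qf (mat (rho f) s) g := by ring
    · intro s P R D D' hP hR
      obtain ⟨-, h2⟩ := hclose s P R D D' hP hR
      refine (hOPT G _ 0 _ _).2.2.2.1 h2 ?_
      nlinarith
  | false =>
    have hl := hLIN G F (fun o u v => ((-1 : ℝ) : ℂ) * Q o u v) CF (|(-1 : ℝ)| * Cq) 0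
    have hl2 := hLIN G Q Q Cq 0 (-1)
    have hmn : ∀ s, mat (fun o u v => F o u v + ((-1 : ℝ) : ℂ) * Q o u v) s =
        mat F s - mat Q s := by
      intro s
      rw [hl.2.2.2.2.2.2.1 s, hl2.2.2.2.2.2.2.2.1 s]
      push_cast
      rw [neg_smul, one_smul, sub_eq_add_neg]
    refine ⟨fun o u v => F o u v + ((-1 : ℝ) : ℂ) * Q o u v, ?_, ?_, ?_, ?_⟩
    · have h1 := hl.2.2.1 hSF (hl2.2.2.2.1 hSQ)
      exact (hLIN G _ F _ _ 0).2.1 h1 (le_max_right _ _)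
    · exact hl.2.2.2.2.1 hHF (hl2.2.2.2.2.2.1 hHQ)
    · intro s g
      have h3 : mat (fun o u v => F o u v + ((-1 : ℝ) : ℂ) * Q o u v) s =
          (1 - aeval (mat Kf s) rq * (mat F s * mat Ra s)) * mat F s := by
        rw [hmn s, hQF s, sub_mul, one_mul]
      rw [h3]
      refine (op_mulVec ((hOPT G _ _ _ _).2.1 op_one (oW s)) g).trans ?_
      calc (1 + cq) ^ 2 * ∑ y, ‖(mat F s).mulVec g y‖ ^ 2
          ≤ (1 + cq) ^ 2 * (cr ^ 2 * (Λ * qf (mat (rho f) s) g)) :=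
            mul_le_mul_of_nonneg_left (domF s g) (sq_nonneg _)
        _ = ((1 + cq) * cr) ^ 2 * Λ * qf (mat (rho f) s) g := by ring
    · intro s P R D D' hP hR
      obtain ⟨h1, h2⟩ := hclose s P R D D' hP hR
      rw [hmn s]
      have h3 : mat F s - mat Q s - Lex false q P (Rm s t₀ X₀ R) =
          (mat F s - P) - (mat Q s - aeval (P * Rm s t₀ X₀ R * P) q) := by
        simp only [Pool.Agent.H45.SQ.Lex, Bool.false_eq_true, if_false]
        abel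
      rw [h3]
      refine (hOPT G _ 0 _ _).2.2.2.1 ((hOPT G _ _ _ _).2.1 h1 h2) ?_
      nlinarith

end Pool.Agent.H17.SQ.STBm
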