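import Pool.Agent.H45.SQ.Targets2

/-!
# T3: lower bound for the mean of `Theta (rho, rho, rho)`
-/

namespace Pool.Agent.H17.SQ

open Pool.Agent.H45.SQ Finset Polynomial
open scoped BigOperators ComplexConjugate ComplexOrder

section

variable {G : Type} [AddCommGroup G] [Fintype G] [DecidableEq G] [Module (ZMod 2) G]

theorem add_self2 (x : G) : x + x = 0 := by
  have : (2 : ZMod 2) • x = 0 := by
    have : (2 : ZMod 2) = 0 := by decide
    rw [this, zero_smul]
  rwa [two_smul] at this

/-- the matrix of offset `o` -/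
noncomputable def Ao (f : G → G → ℂ) (o : G) : Matrix G G ℂ :=
  Matrix.of fun u v => ((Fintype.card G : ℂ))⁻¹ * rho f o u v

theorem Th_rho (f : G → G → ℂ) (s t : G) :
    Th s t (mat (rho f) s) (mat (rho f) t) (mat (rho f) (s + t)) =
      ((Fintype.card G : ℂ))⁻¹ ^ 2 * ∑ y, ∑ y',
        rho f (y + y') y (y + s) * rho f (y + y') (y + s) (y + s + t) *
          rho f (y + y') (y + s + t) y := by
  have hN : (Fintype.card G : ℂ) ≠ 0 := by
    exact_mod_cast Fintype.card_ne_zero
  unfold Th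
  rw [Finset.mul_sum, Finset.mul_sum]
  refine Finset.sum_congr rfl fun y _ => ?_
  rw [Finset.mul_sum, Finset.mul_sum]
  refine Finset.sum_congr rfl fun y' _ => ?_
  unfold mat
  have e1 : y + s + (y' + s) = y + y' := by
    calc y + s + (y' + s) = y + y' + (s + s) := by abel
      _ = y + y' := by rw [add_self2, add_zero]
  have e2 : y + s + t + (y' + s + t) = y + y' := by
    calc y + s + t + (y' + s + t) = y + y' + (s + s) + (t + t) := by abel
      _ = y + y' := by rw [add_self2, add_self2, add_zero, add_zero]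
  have e3 : y + s + t + (s + t) = y := by
    calc y + s + t + (s + t) = y + (s + s) + (t + t) := by abel
      _ = y := by rw [add_self2, add_self2, add_zero, add_zero]
  rw [e1, e2, e3]
  field_simp

theorem sum_reindex (F : G → G → G → G → ℂ) :
    ∑ s, ∑ t, ∑ y, ∑ y', F (y + y') y (y + s) (y + s + t) =
      ∑ o, ∑ u, ∑ v, ∑ w, F o u v w := by
  have h1 : ∀ s t : G, ∑ y, ∑ y', F (y + y') y (y + s) (y + s + t) =
      ∑ y, ∑ o, F o y (y + s) (y + s + t) := by
    intro s t
    refine Finset.sum_congr rfl fun y _ => ?_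
    exact Fintype.sum_equiv (Equiv.addLeft y) _ _ (fun y' => by simp)
  simp_rw [h1]
  have h2 : ∀ s : G, ∑ t, ∑ y, ∑ o, F o y (y + s) (y + s + t) =
      ∑ y, ∑ o, ∑ w, F o y (y + s) w := by
    intro s
    rw [Finset.sum_comm]
    refine Finset.sum_congr rfl fun y _ => ?_
    rw [Finset.sum_comm]
    refine Finset.sum_congr rfl fun o _ => ?_
    exact Fintype.sum_equiv (Equiv.addLeft (y + s)) _ _ (fun t => by simp [add_assoc])
  simp_rw [h2]
  rw [Finset.sum_comm]
  rw [Finset.sum_comm (s := (Finset.univ : Finset G)) (t := (Finset.univ : Finset G))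
    (f := fun o u => ∑ v, ∑ w, F o u v w)]
  refine Finset.sum_congr rfl fun y _ => ?_
  rw [Finset.sum_comm]
  refine Finset.sum_congr rfl fun o _ => ?_
  exact Fintype.sum_equiv (Equiv.addLeft y) _ _ (fun s => by simp)

theorem expect_eq (F : G → ℂ) : 𝔼 x, F x = ((Fintype.card G : ℂ))⁻¹ * ∑ x, F x := by
  rw [Finset.expect_eq_sum_div_card, Finset.card_univ, div_eq_inv_mul]

theorem expect_eqR (F : G → ℝ) : 𝔼 x, F x = ((Fintype.card G : ℝ))⁻¹ * ∑ x, F x := by
  rw [Finset.expect_eq_sum_div_card, Finset.card_univ, div_eq_inv_mul]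

theorem expect_re (F : G → ℂ) : (𝔼 x, F x).re = 𝔼 x, (F x).re := by
  rw [expect_eq, expect_eqR]
  have : ((Fintype.card G : ℂ))⁻¹ = (((Fintype.card G : ℝ)⁻¹ : ℝ) : ℂ) := by push_cast; rfl
  rw [this, Complex.re_ofReal_mul, Complex.re_sum]

theorem mean_Th (f : G → G → ℂ) :
    𝔼 s, 𝔼 t, Th s t (mat (rho f) s) (mat (rho f) t) (mat (rho f) (s + t)) =
      𝔼 o, (Ao f o * Ao f o * Ao f o).trace := by
  simp_rw [expect_eq, Th_rho]
  have h : ∀ o, (Ao f o * Ao f o * Ao f o).trace = ((Fintype.card G : ℂ))⁻¹ ^ 3 *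
      ∑ u, ∑ v, ∑ w, rho f o u v * rho f o v w * rho f o w u := by
    intro o
    simp only [Matrix.trace, Matrix.diag_apply, Matrix.mul_apply, Ao, Matrix.of_apply,
      Finset.mul_sum, Finset.sum_mul]
    refine Finset.sum_congr rfl fun u _ => ?_
    rw [Finset.sum_comm]
    refine Finset.sum_congr rfl fun v _ => ?_
    refine Finset.sum_congr rfl fun w _ => ?_
    ring
  simp_rw [h]
  have h2 := sum_reindex (fun o u v w => rho f o u v * rho f o v w * rho f o w u)
  simp only [← Finset.mul_sum]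
  rw [h2]
  ring

end

theorem t3 (hR : T_RHO) (hC : T_CUBIC) : T_T3 := by
  intro G _ _ _ _ f hf
  obtain ⟨-, -, -, -, h1, h2⟩ := hR G f hf
  have h3 : 𝔼 s, 𝔼 t, (Th s t (mat (rho f) s) (mat (rho f) t) (mat (rho f) (s + t))).re =
      𝔼 o, ((Ao f o * Ao f o * Ao f o).trace).re := by
    rw [← expect_re, ← mean_Th, expect_re]
    refine Finset.expect_congr rfl fun s _ => ?_
    rw [expect_re]
  rw [h3]
  have h4 : ∀ o, ((Ao f o * Ao f o).trace.re) ^ 2 ≤ (Ao f o * Ao f o * Ao f o).trace.re :=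
    fun o => hC G (Ao f o) (h1 o) (h2 o)
  have h5 : U8 f = 𝔼 o, (Ao f o * Ao f o).trace.re := by
    unfold U8
    refine Finset.expect_congr rfl fun o _ => ?_
    have hH : (Ao f o).IsHermitian := (h1 o).isHermitian
    have h6 : (Ao f o * Ao f o).trace = ((((Fintype.card G : ℝ))⁻¹ ^ 2 *
        ∑ u, ∑ v, ‖rho f o u v‖ ^ 2 : ℝ) : ℂ) := by
      push_cast
      rw [Finset.mul_sum]
      simp only [Matrix.trace, Matrix.diag_apply, Matrix.mul_apply]
      refine Finset.sum_congr rfl fun u _ => ?_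
      rw [Finset.mul_sum]
      refine Finset.sum_congr rfl fun v _ => ?_
      have h7 : Ao f o v u = conj (Ao f o u v) := by
        have := congrFun (congrFun hH v) u
        rw [Matrix.conjTranspose_apply] at this
        rw [← this]; rfl
      rw [h7, Complex.mul_conj, Complex.normSq_eq_norm_sq]
      simp only [Ao, Matrix.of_apply, norm_mul, norm_inv, Complex.norm_natCast]
      push_cast
      ring
    rw [h6, Complex.ofReal_re, expect_eqR]
    simp_rw [expect_eqR]
    rw [← Finset.mul_sum]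
    ring
  rw [h5]
  have h8 : (𝔼 o, (Ao f o * Ao f o).trace.re) ^ 2 ≤ 𝔼 o, ((Ao f o * Ao f o).trace.re) ^ 2 := by
    rw [expect_eqR, expect_eqR]
    have hN : (0 : ℝ) < Fintype.card G := by exact_mod_cast Fintype.card_pos
    have := sq_sum_le_card_mul_sum_sq (s := (Finset.univ : Finset G))
      (f := fun o => (Ao f o * Ao f o).trace.re)
    rw [Finset.card_univ] at this
    rw [mul_pow, ← div_eq_inv_mul, pow_two ((Fintype.card G : ℝ)⁻¹), mul_assoc,
      ← div_eq_inv_mul]
    refine div_le_div_of_nonneg_right ?_ hN.le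
    rw [← div_eq_inv_mul, div_le_iff₀ hN]
    linarith
  exact h8.trans (Finset.expect_le_expect fun o _ => h4 o)

end Pool.Agent.H17.SQ
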